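import Pool.Agent.Lib.MP_688fd0_co.OSF.Iface

/-!
Groups of odd order, module LINES: optional bands that connect the lines of `a` and avoid a given
small set (helper17).
-/

set_option autoImplicit false

namespace Pool.Agent.Lib.MP_688fd0_co.OSF.H17

open Finset

universe u v

section

variable {Q : Type u} [Group Q] [Fintype Q]

/-- a point of a line that avoids a small set -/
theorem pick (A : Q) (s : Q) (l : Q ⧸ Subgroup.zpowers A) (V : Finset Q)
    (hV : 4 * V.card < orderOf A) :
    ∃ y : Q, (y : Q ⧸ Subgroup.zpowers A) = l ∧ y ∉ V ∧ y * A ∉ V ∧ y * s ∉ V ∧ y * A * s ∉ V := by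
  classical
  obtain ⟨y0, rfl⟩ := QuotientGroup.mk_surjective l
  by_contra hcon
  push Not at hcon
  have hsub : (range (orderOf A)).image (fun k => y0 * A ^ k) ⊆
      V ∪ (V.image (fun x => x * A⁻¹) ∪ (V.image (fun x => x * s⁻¹) ∪
        V.image (fun x => x * s⁻¹ * A⁻¹))) := by
    intro y hy
    rw [mem_image] at hy
    obtain ⟨k, -, rfl⟩ := hy
    have h1 : ((y0 * A ^ k : Q) : Q ⧸ Subgroup.zpowers A) = (y0 : Q ⧸ Subgroup.zpowers A) := by
      rw [eq_comm, QuotientGroup.eq, inv_mul_cancel_left]
      exact Subgroup.npow_mem_zpowers A k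
    rw [mem_union, mem_union, mem_union, mem_image, mem_image, mem_image]
    by_cases c1 : y0 * A ^ k ∈ V
    · exact Or.inl c1
    · right
      by_cases c2 : y0 * A ^ k * A ∈ V
      · left
        exact ⟨_, c2, by group⟩
      · right
        by_cases c3 : y0 * A ^ k * s ∈ V
        · left
          exact ⟨_, c3, by group⟩
        · right
          exact ⟨_, hcon _ h1 c1 c2 c3, by group⟩
  have hcard : ((range (orderOf A)).image (fun k => y0 * A ^ k)).card = orderOf A := by
    rw [card_image_of_injOn, card_range]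
    intro k hk k' hk' h
    rw [coe_range, Set.mem_Iio] at hk hk'
    exact pow_injOn_Iio_orderOf hk hk' (mul_left_cancel h)
  have h2 := card_le_card hsub
  rw [hcard] at h2
  have h3 : (V ∪ (V.image (fun x => x * A⁻¹) ∪ (V.image (fun x => x * s⁻¹) ∪
        V.image (fun x => x * s⁻¹ * A⁻¹)))).card ≤ V.card + (V.card + (V.card + V.card)) := by
    refine (card_union_le _ _).trans (Nat.add_le_add le_rfl ?_)
    refine (card_union_le _ _).trans (Nat.add_le_add card_image_le ?_)
    exact (card_union_le _ _).trans (Nat.add_le_add card_image_le card_image_le)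
  omega

variable {B : Lb.{u, v} Q} {a : B.L}

omit [Fintype Q] in
/-- the two lines of a band -/
theorem mk_of_mem_bv [(Subgroup.zpowers (B.q a)).Normal] {b : Q × B.L} {x : Q}
    (hx : x ∈ bv a b) :
    (x : Q ⧸ Subgroup.zpowers (B.q a)) = (b.1 : Q ⧸ Subgroup.zpowers (B.q a)) ∨
    (x : Q ⧸ Subgroup.zpowers (B.q a)) = (b.1 : Q ⧸ Subgroup.zpowers (B.q a)) *
      (B.q b.2 : Q ⧸ Subgroup.zpowers (B.q a)) := by
  have h1 : ((B.q a : Q) : Q ⧸ Subgroup.zpowers (B.q a)) = 1 :=
    (QuotientGroup.eq_one_iff _).2 (Subgroup.mem_zpowers _)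
  unfold bv at hx
  simp only [List.mem_cons, List.not_mem_nil, or_false] at hx
  rcases hx with rfl | rfl | rfl | rfl
  · exact Or.inl rfl
  · left
    rw [QuotientGroup.mk_mul, h1, mul_one]
  · right
    rw [QuotientGroup.mk_mul]
  · right
    rw [QuotientGroup.mk_mul, QuotientGroup.mk_mul, h1, mul_one]

/-- the bands are chosen one after the other -/
theorem greedy [Fintype B.L] [(Subgroup.zpowers (B.q a)).Normal] (Z : Finset Q)
    (hbig : 4 * Z.card + 64 * Fintype.card B.L < orderOf (B.q a))
    (P : Finset ((Q ⧸ Subgroup.zpowers (B.q a)) × B.L)) :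
    ∃ y : (Q ⧸ Subgroup.zpowers (B.q a)) × B.L → Q,
      (∀ p, (y p : Q ⧸ Subgroup.zpowers (B.q a)) = p.1) ∧
      (∀ p ∈ P, ∀ x ∈ bv a (y p, p.2), x ∉ Z) ∧
      ∀ p ∈ P, ∀ p' ∈ P, p ≠ p' → ∀ x ∈ bv a (y p, p.2), x ∉ bv a (y p', p'.2) := by
  classical
  induction P using Finset.induction_on with
  | empty =>
    refine ⟨fun p => Quotient.out p.1, fun p => ?_, by simp, by simp⟩
    exact Quotient.out_eq' p.1
  | insert p0 P hp0 ih =>
    obtain ⟨y, hy1, hy2, hy3⟩ := ih
    set F : Finset ((Q ⧸ Subgroup.zpowers (B.q a)) × B.L) :=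
      (univ.image fun t => (p0.1, t)) ∪ ((univ.image fun t => (p0.1 * (B.q p0.2 : Q), t)) ∪
        ((univ.image fun t => (p0.1 * ((B.q t : Q) : Q ⧸ Subgroup.zpowers (B.q a))⁻¹, t)) ∪
        (univ.image fun t => (p0.1 * (B.q p0.2 : Q) *
          ((B.q t : Q) : Q ⧸ Subgroup.zpowers (B.q a))⁻¹, t)))) with hF
    have hFc : F.card ≤ 4 * Fintype.card B.L := by
      have h1 : F.card ≤ Fintype.card B.L + (Fintype.card B.L + (Fintype.card B.L +
          Fintype.card B.L)) := by
        rw [hF]
        refine (card_union_le _ _).trans (Nat.add_le_add card_image_le ?_)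
        refine (card_union_le _ _).trans (Nat.add_le_add card_image_le ?_)
        exact (card_union_le _ _).trans (Nat.add_le_add card_image_le card_image_le)
      omega
    have hFm : ∀ p : (Q ⧸ Subgroup.zpowers (B.q a)) × B.L,
        (p.1 = p0.1 ∨ p.1 = p0.1 * (B.q p0.2 : Q) ∨
          p.1 * ((B.q p.2 : Q) : Q ⧸ Subgroup.zpowers (B.q a)) = p0.1 ∨
          p.1 * ((B.q p.2 : Q) : Q ⧸ Subgroup.zpowers (B.q a)) = p0.1 * (B.q p0.2 : Q)) →
        p ∈ F := by
      rintro ⟨l, t⟩ h
      rw [hF, mem_union, mem_union, mem_union, mem_image, mem_image, mem_image, mem_image]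
      rcases h with h | h | h | h
      · exact Or.inl ⟨t, mem_univ _, by rw [Prod.mk.injEq]; exact ⟨h.symm, rfl⟩⟩
      · exact Or.inr (Or.inl ⟨t, mem_univ _, by rw [Prod.mk.injEq]; exact ⟨h.symm, rfl⟩⟩)
      · refine Or.inr (Or.inr (Or.inl ⟨t, mem_univ _, ?_⟩))
        rw [Prod.mk.injEq]
        exact ⟨by rw [← h, mul_inv_cancel_right], rfl⟩
      · refine Or.inr (Or.inr (Or.inr ⟨t, mem_univ _, ?_⟩))
        rw [Prod.mk.injEq]
        exact ⟨by rw [← h, mul_inv_cancel_right], rfl⟩
    set V : Finset Q := Z ∪ F.biUnion fun p => (bv a (y p, p.2)).toFinset with hV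
    have hVc : V.card ≤ Z.card + 16 * Fintype.card B.L := by
      rw [hV]
      refine (card_union_le _ _).trans (Nat.add_le_add le_rfl ?_)
      refine card_biUnion_le.trans ?_
      calc ∑ p ∈ F, ((bv a (y p, p.2)).toFinset).card ≤ ∑ p ∈ F, 4 := by
            refine sum_le_sum fun p _ => ?_
            refine (List.toFinset_card_le _).trans ?_
            simp [bv]
        _ = F.card * 4 := by rw [sum_const, smul_eq_mul]
        _ ≤ 16 * Fintype.card B.L := by omega
    obtain ⟨z, hz, h1, h2, h3, h4⟩ := pick (B.q a) (B.q p0.2) p0.1 V (by omega)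
    have hzV : ∀ x ∈ bv a (z, p0.2), x ∉ V := by
      intro x hx
      unfold bv at hx
      simp only [List.mem_cons, List.not_mem_nil, or_false] at hx
      rcases hx with rfl | rfl | rfl | rfl
      · exact h1
      · exact h2
      · exact h3
      · exact h4
    have hzP : ∀ p ∈ P, ∀ x ∈ bv a (z, p0.2), x ∉ bv a (y p, p.2) := by
      intro p hp x hx hx'
      refine hzV x hx ?_
      have e1 := mk_of_mem_bv hx
      have e2 := mk_of_mem_bv hx'
      have hpF : p ∈ F := by
        refine hFm p ?_
        simp only [hy1] at e2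
        simp only [hz] at e1
        rcases e1 with e1 | e1 <;> rcases e2 with e2 | e2
        · exact Or.inl (e2.symm.trans e1)
        · exact Or.inr (Or.inr (Or.inl (e2.symm.trans e1)))
        · exact Or.inr (Or.inl (e2.symm.trans e1))
        · exact Or.inr (Or.inr (Or.inr (e2.symm.trans e1)))
      rw [hV, mem_union, mem_biUnion]
      exact Or.inr ⟨p, hpF, List.mem_toFinset.2 hx'⟩
    have hne : ∀ p ∈ P, p ≠ p0 := by
      rintro p hp rfl
      exact hp0 hp
    refine ⟨Function.update y p0 z, fun p => ?_, ?_, ?_⟩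
    · by_cases hp : p = p0
      · subst hp
        rw [Function.update_self]
        exact hz
      · rw [Function.update_of_ne hp]
        exact hy1 p
    · intro p hp x hx
      rw [mem_insert] at hp
      rcases hp with rfl | hp
      · rw [Function.update_self] at hx
        exact fun h => hzV x hx (by rw [hV]; exact mem_union_left _ h)
      · rw [Function.update_of_ne (hne p hp)] at hx
        exact hy2 p hp x hx
    · intro p hp p' hp' hpp x hx hx'
      rw [mem_insert] at hp hp'
      rcases hp with rfl | hp <;> rcases hp' with rfl | hp'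
      · exact hpp rfl
      · rw [Function.update_self] at hx
        rw [Function.update_of_ne (hne p' hp')] at hx'
        exact hzP p' hp' x hx hx'
      · rw [Function.update_self] at hx'
        rw [Function.update_of_ne (hne p hp)] at hx
        exact hzP p hp x hx' hx
      · rw [Function.update_of_ne (hne p hp)] at hx
        rw [Function.update_of_ne (hne p' hp')] at hx'
        exact hy3 p hp p' hp' hpp x hx hx'

end

theorem lines : LinesS.{u, v} := by
  intro Q _ _ B a Z hL hcen hgen hbig
  classical
  have := Fintype.ofFinite B.L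
  rw [Nat.card_eq_fintype_card] at hbig
  have hcomm : ∀ n ∈ Subgroup.zpowers (B.q a), ∀ x : Q, x * n = n * x := by
    intro n hn x
    obtain ⟨k, rfl⟩ := Subgroup.mem_zpowers_iff.1 hn
    exact (Commute.zpow_right (hcen x : Commute x (B.q a)) k)
  have hnorm : (Subgroup.zpowers (B.q a)).Normal := ⟨fun n hn g => by
    rw [hcomm n hn g, mul_assoc, mul_inv_cancel, mul_one]; exact hn⟩
  have hA1 : B.q a ≠ 1 := by
    intro h
    rw [h, orderOf_one] at hbig
    omega
  obtain ⟨y, hy1, hy2, hy3⟩ := greedy (a := a) Z (by omega) (univ :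
    Finset ((Q ⧸ Subgroup.zpowers (B.q a)) × B.L))
  set P : Finset ((Q ⧸ Subgroup.zpowers (B.q a)) × B.L) :=
    univ.filter fun p => B.q p.2 ∉ Subgroup.zpowers (B.q a) with hP
  refine ⟨P.toList.map fun p => (y p, p.2), ?_, ?_, ?_⟩
  · rw [List.flatMap_map, List.nodup_flatMap]
    constructor
    · intro p hp
      rw [Finset.mem_toList, hP, mem_filter] at hp
      have hs := hp.2
      have hs1 : B.q p.2 ≠ 1 := B.ne_one p.2
      have hs2 : B.q a ≠ B.q p.2 := by
        intro h
        exact hs (h ▸ Subgroup.mem_zpowers _)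
      have hs3 : B.q a * B.q p.2 ≠ 1 := by
        intro h
        apply hs
        rw [← inv_eq_of_mul_eq_one_right h]
        exact inv_mem (Subgroup.mem_zpowers _)
      have hs4 : B.q p.2 ≠ B.q a * B.q p.2 := by
        intro h
        exact hA1 (mul_eq_right.1 h.symm)
      show (bv a (y p, p.2)).Nodup
      unfold bv
      simp only [List.nodup_cons, List.mem_cons, List.not_mem_nil, or_false, not_or,
        List.nodup_nil, and_true, not_false_eq_true, mul_assoc, mul_right_inj, left_eq_mul]
      exact ⟨⟨hA1, hs1, hs3⟩, ⟨hs2, hs1⟩, hs4⟩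
    · refine List.Nodup.pairwise_of_forall_ne (Finset.nodup_toList _) ?_
      intro p _ p' _ hpp x hx hx'
      exact hy3 p (mem_univ _) p' (mem_univ _) hpp x hx hx'
  · intro b hb x hx
    rw [List.mem_map] at hb
    obtain ⟨p, -, rfl⟩ := hb
    exact hy2 p (mem_univ _) x hx
  · intro r hr h1 h2
    have hN : ∀ n ∈ Subgroup.zpowers (B.q a), ∀ x, r x (x * n) := by
      intro n hn
      obtain ⟨k, rfl⟩ := Subgroup.mem_zpowers_iff.1 hn
      induction k using Int.induction_on with
      | zero =>
        intro x
        rw [zpow_zero, mul_one]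
        exact hr.refl x
      | succ k ih =>
        intro x
        rw [zpow_add_one, ← mul_assoc]
        exact hr.trans (ih (Subgroup.zpow_mem_zpowers _ _) x) (h1 _)
      | pred k ih =>
        intro x
        rw [zpow_sub_one, ← mul_assoc]
        refine hr.trans (ih (Subgroup.zpow_mem_zpowers _ _) x) ?_
        have := h1 (x * B.q a ^ (-(k : ℤ)) * (B.q a)⁻¹)
        rw [inv_mul_cancel_right] at this
        exact hr.symm this
    have hs : ∀ (s : B.L) (x : Q), r x (x * B.q s) := by
      intro s x
      by_cases hs : B.q s ∈ Subgroup.zpowers (B.q a)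
      · exact hN _ hs x
      · have h3 := h2 (y ((x : Q ⧸ Subgroup.zpowers (B.q a)), s), s) (by
          rw [List.mem_map]
          refine ⟨((x : Q ⧸ Subgroup.zpowers (B.q a)), s), ?_, rfl⟩
          rw [Finset.mem_toList, hP, mem_filter]
          exact ⟨mem_univ _, hs⟩)
        have h4 := hy1 ((x : Q ⧸ Subgroup.zpowers (B.q a)), s)
        rw [eq_comm, QuotientGroup.eq] at h4
        set z := y ((x : Q ⧸ Subgroup.zpowers (B.q a)), s) with hz
        have h5 : r x z := by
          have := hN _ h4 x
          rwa [mul_inv_cancel_left] at this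
        have h6 : r (x * B.q s) (z * B.q s) := by
          have := hN _ h4 (x * B.q s)
          rwa [mul_assoc, hcomm _ h4 (B.q s), ← mul_assoc, mul_inv_cancel_left] at this
        exact hr.trans (hr.trans h5 h3) (hr.symm h6)
    have hall : ∀ g : Q, ∀ x, r x (x * g) := by
      intro g
      have hg : g ∈ Subgroup.closure (Set.range B.q) := by rw [hgen]; trivial
      induction hg using Subgroup.closure_induction with
      | mem g hg =>
        obtain ⟨s, rfl⟩ := hg
        exact hs s
      | one =>
        intro x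
        rw [mul_one]
        exact hr.refl x
      | mul g h _ _ hg hh =>
        intro x
        rw [← mul_assoc]
        exact hr.trans (hg x) (hh _)
      | inv g _ hg =>
        intro x
        have := hg (x * g⁻¹)
        rw [inv_mul_cancel_right] at this
        exact hr.symm this
    intro x z
    have := hall (x⁻¹ * z) x
    rwa [mul_inv_cancel_left] at this

end Pool.Agent.Lib.MP_688fd0_co.OSF.H17
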